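import Mathlib

/-!
# Walsh functions on `{0,1}^Γ` with the fair coin-tossing measure
-/

set_option autoImplicit false

open MeasureTheory Filter Topology Set

namespace Pool.Agent.TH285

/-- the fair coin -/
noncomputable def coin : Measure Bool :=
  (1 / 2 : ENNReal) • Measure.dirac true + (1 / 2 : ENNReal) • Measure.dirac false

instance : IsProbabilityMeasure coin := by
  constructor
  simp only [coin, Measure.coe_add, Measure.coe_smul, Pi.add_apply, Pi.smul_apply, smul_eq_mul,
    measure_univ, mul_one]
  exact ENNReal.add_halves 1

/-- sign of a bit -/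
def sgn (b : Bool) : ℝ := if b then -1 else 1

theorem sgn_sq (b : Bool) : sgn b * sgn b = 1 := by
  cases b <;> norm_num [sgn]

theorem integral_coin (f : Bool → ℝ) : ∫ b, f b ∂coin = (f true + f false) / 2 := by
  have h1 : Integrable f ((1 / 2 : ENNReal) • Measure.dirac true) :=
    (Integrable.of_finite (f := f) (μ := Measure.dirac true)).smul_measure (by simp)
  have h2 : Integrable f ((1 / 2 : ENNReal) • Measure.dirac false) :=
    (Integrable.of_finite (f := f) (μ := Measure.dirac false)).smul_measure (by simp)
  rw [coin, integral_add_measure h1 h2, integral_smul_measure, integral_smul_measure,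
    integral_dirac, integral_dirac]
  simp
  ring

theorem integral_sgn : ∫ b, sgn b ∂coin = 0 := by
  rw [integral_coin]; norm_num [sgn]

variable {G : Type*}

/-- the coin tossing measure -/
noncomputable def bern (G : Type*) : Measure (G → Bool) := Measure.infinitePi (fun _ : G => coin)

instance : IsProbabilityMeasure (bern G) := by unfold bern; infer_instance

/-- Walsh functions -/
def wal (S : Finset G) (y : G → Bool) : ℝ := ∏ s ∈ S, sgn (y s)

theorem wal_cont (S : Finset G) : Continuous (wal S) := by
  unfold wal
  refine continuous_finsetProd _ fun s _ => ?_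
  exact (continuous_of_discreteTopology (f := sgn)).comp (continuous_apply s)

theorem wal_sq (S : Finset G) (y : G → Bool) : wal S y * wal S y = 1 := by
  unfold wal
  rw [← Finset.prod_mul_distrib]
  exact Finset.prod_eq_one fun s _ => sgn_sq _

theorem wal_mul [DecidableEq G] (S T : Finset G) (y : G → Bool) :
    wal S y * wal T y = wal (symmDiff S T) y := by
  have h1 : wal S y = wal (S \ T) y * wal (S ∩ T) y := by
    unfold wal
    rw [← Finset.prod_union (Finset.disjoint_sdiff_inter S T), Finset.sdiff_union_inter]
  have h2 : wal T y = wal (T \ S) y * wal (S ∩ T) y := by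
    unfold wal
    rw [Finset.inter_comm S T, ← Finset.prod_union (Finset.disjoint_sdiff_inter T S),
      Finset.sdiff_union_inter]
  have h3 : wal (symmDiff S T) y = wal (S \ T) y * wal (T \ S) y := by
    unfold wal
    rw [← Finset.prod_union]
    · rfl
    · exact disjoint_sdiff_sdiff
  rw [h1, h2, h3]
  calc _ = wal (S \ T) y * wal (T \ S) y * (wal (S ∩ T) y * wal (S ∩ T) y) := by ring
    _ = _ := by rw [wal_sq, mul_one]

theorem integral_wal (S : Finset G) (hS : S.Nonempty) : ∫ y, wal S y ∂(bern G) = 0 := by
  have h1 : ∀ y : G → Bool, wal S y = (fun z : (i : S) → Bool => ∏ i : S, sgn (z i)) (S.restrict y) := by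
    intro y
    unfold wal
    simp only [Finset.restrict]
    exact (Finset.prod_coe_sort S (fun s => sgn (y s))).symm
  have h2 := integral_restrict_infinitePi (μ := fun _ : G => coin) (s := S)
    (f := fun z : (i : S) → Bool => ∏ i : S, sgn (z i)) (measurable_of_finite _).aestronglyMeasurable
  refine (integral_congr_ae (ae_of_all _ h1)).trans (h2.trans ?_)
  have h3 := integral_fintype_prod_eq_prod (ι := S) (E := fun _ => Bool) (μ := fun _ : S => coin)
    (f := fun (_ : S) (b : Bool) => sgn b)
  rw [h3]
  obtain ⟨s, hs⟩ := hS
  exact Finset.prod_eq_zero (Finset.mem_univ (⟨s, hs⟩ : S)) integral_sgn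

end Pool.Agent.TH285
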