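import Mathlib
import Pool.Agent.TH285.Walsh

/-!
# Parseval identity for Walsh functions
-/

set_option autoImplicit false

open MeasureTheory Filter Topology Set Submodule Algebra

namespace Pool.Agent.TH285

variable {G : Type*}

/-- Walsh functions as continuous maps -/
def walC (S : Finset G) : C(G → Bool, ℝ) := ⟨wal S, wal_cont S⟩

theorem wal_empty (y : G → Bool) : wal (∅ : Finset G) y = 1 := by simp [wal]

theorem wal_single (g : G) (y : G → Bool) : wal ({g} : Finset G) y = sgn (y g) := by simp [wal]

theorem adjoin_wal : Subalgebra.toSubmodule (adjoin ℝ (range (walC (G := G)))) =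
    span ℝ (range (walC (G := G))) := by
  classical
  apply adjoin_eq_span_of_subset
  refine Subset.trans ?_ Submodule.subset_span
  intro x hx
  refine Submonoid.closure_induction (fun _ => id) ⟨∅, ?_⟩ ?_ hx
  · ext1 z; exact wal_empty z
  · rintro - - - - ⟨m, rfl⟩ ⟨n, rfl⟩
    refine ⟨symmDiff m n, ?_⟩
    ext1 z
    exact (wal_mul m n z).symm

theorem wal_sep : (adjoin ℝ (range (walC (G := G)))).SeparatesPoints := by
  intro x y hxy
  obtain ⟨g, hg⟩ := Function.ne_iff.1 hxy
  refine ⟨_, ⟨walC {g}, subset_adjoin ⟨{g}, rfl⟩, rfl⟩, ?_⟩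
  show wal {g} x ≠ wal {g} y
  rw [wal_single, wal_single]
  revert hg
  cases x g <;> cases y g <;> norm_num [sgn]

theorem span_wal : (span ℝ (range (walC (G := G)))).topologicalClosure = ⊤ := by
  rw [← adjoin_wal]
  exact congr_arg (Subalgebra.toSubmodule ·)
    (ContinuousMap.subalgebra_topologicalClosure_eq_top_of_separatesPoints _ wal_sep)

variable [Countable G]

/-- Walsh functions in `L²` -/
noncomputable def walL (S : Finset G) : Lp ℝ 2 (bern G) :=
  ContinuousMap.toLp (E := ℝ) 2 (bern G) ℝ (walC S)

theorem span_walL : (span ℝ (range (walL (G := G)))).topologicalClosure = ⊤ := by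
  have h := (ContinuousMap.toLp_denseRange ℝ (bern G) ℝ (p := 2)
    (by norm_num)).topologicalClosure_map_submodule (span_wal (G := G))
  convert! h using 2
  rw [map_span]
  congr 1
  ext x
  simp [walL]

theorem orthonormal_walL : Orthonormal ℝ (walL (G := G)) := by
  classical
  rw [orthonormal_iff_ite]
  intro S T
  unfold walL
  rw [ContinuousMap.inner_toLp]
  have h1 : ∀ x, (walC T) x * (starRingEnd ℝ) ((walC S) x) = wal (symmDiff T S) x :=
    fun x => wal_mul T S x
  simp_rw [h1]
  split_ifs with h
  · subst h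
    simp [wal_empty]
  · refine integral_wal _ ?_
    rw [Finset.nonempty_iff_ne_empty]
    intro h2
    exact h (symmDiff_eq_bot.1 h2).symm

/-- Walsh coefficient of a set -/
noncomputable def wc (B : Set (G → Bool)) (S : Finset G) : ℝ := ∫ y in B, wal S y ∂(bern G)

theorem wal_int (S : Finset G) : Integrable (wal S) (bern G) := by
  have h := (walC S).continuous.integrable_of_hasCompactSupport (μ := bern G)
    (HasCompactSupport.of_compactSpace _)
  exact h

theorem inner_walL (B : Set (G → Bool)) (hB : MeasurableSet B) (S : Finset G) :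
    inner ℝ (walL S) (indicatorConstLp 2 hB (measure_ne_top (bern G) B) (1 : ℝ)) = wc B S := by
  have h1 : inner ℝ (walL S) (indicatorConstLp 2 hB (measure_ne_top (bern G) B) (1 : ℝ)) =
      ∫ y, (indicatorConstLp 2 hB (measure_ne_top (bern G) B) (1 : ℝ)) y * (walL S) y ∂(bern G) := by
    rw [L2.inner_def]
    refine integral_congr_ae (ae_of_all _ fun y => ?_)
    simp
  rw [h1, wc, ← integral_indicator hB]
  refine integral_congr_ae ?_
  filter_upwards [indicatorConstLp_coeFn (p := 2) (hs := hB) (hμs := measure_ne_top (bern G) B)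
    (c := (1 : ℝ)), ContinuousMap.coeFn_toLp (p := 2) (𝕜 := ℝ) (bern G) (walC S)] with y hy hy2
  have hy3 : (walL S) y = wal S y := hy2
  rw [hy, hy3]
  by_cases h : y ∈ B <;> simp [h]

/-- Parseval identity for linear combinations -/
theorem parseval (B C : Set (G → Bool)) (hB : MeasurableSet B) (hC : MeasurableSet C) :
    HasSum (fun S => (wc B S - wc C S) ^ 2) ((bern G).real (symmDiff B C)) := by
  set f : Lp ℝ 2 (bern G) := indicatorConstLp 2 hB (measure_ne_top (bern G) B) (1 : ℝ) with hf
  set g : Lp ℝ 2 (bern G) := indicatorConstLp 2 hC (measure_ne_top (bern G) C) (1 : ℝ) with hg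
  have hb := HilbertBasis.hasSum_inner_mul_inner
    (HilbertBasis.mk (orthonormal_walL (G := G)) span_walL.ge) (f - g) (f - g)
  have h1 : inner ℝ (f - g) (f - g) = (bern G).real (symmDiff B C) := by
    rw [L2.inner_def]
    have : ∫ a, inner ℝ ((f - g : Lp ℝ 2 (bern G)) a) ((f - g : Lp ℝ 2 (bern G)) a) ∂(bern G) =
        ∫ a, (symmDiff B C).indicator (fun _ => (1 : ℝ)) a ∂(bern G) := by
      refine integral_congr_ae ?_
      filter_upwards [indicatorConstLp_coeFn (p := 2) (hs := hB)
        (hμs := measure_ne_top (bern G) B) (c := (1 : ℝ)), indicatorConstLp_coeFn (p := 2) (hs := hC)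
        (hμs := measure_ne_top (bern G) C) (c := (1 : ℝ)), Lp.coeFn_sub f g] with y h1 h2 h3
      rw [h3]
      simp only [Pi.sub_apply]
      rw [hf, hg, h1, h2]
      by_cases hyB : y ∈ B <;> by_cases hyC : y ∈ C <;> simp [hyB, hyC, Set.mem_symmDiff]
    rw [this, integral_indicator (hB.symmDiff hC)]
    simp [Measure.real]
  rw [h1] at hb
  have h2 : (fun S => (wc B S - wc C S) ^ 2) = fun i =>
      inner ℝ (f - g) ((HilbertBasis.mk (orthonormal_walL (G := G)) span_walL.ge) i) *
        inner ℝ ((HilbertBasis.mk (orthonormal_walL (G := G)) span_walL.ge) i) (f - g) := by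
    funext S
    rw [HilbertBasis.coe_mk, inner_sub_right, inner_walL, inner_walL, real_inner_comm,
      inner_sub_right, inner_walL, inner_walL]
    ring
  rw [h2]
  exact hb

end Pool.Agent.TH285
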