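import Mathlib
import Pool.Agent.TH285.Parseval

/-!
# The Bernoulli shift of a non-amenable group is strongly ergodic, with a linear bound
-/

set_option autoImplicit false
set_option linter.unusedSectionVars false

open MeasureTheory Filter Topology Set

namespace Pool.Agent.TH285

/-- amenability of a discrete group: there is a left invariant finitely additive probability
measure defined on all subsets -/
def IsAmenable (G : Type*) [Group G] : Prop :=
  ∃ m : Set G → ℝ, (∀ A, 0 ≤ m A) ∧ m univ = 1 ∧
    (∀ A B : Set G, Disjoint A B → m (A ∪ B) = m A + m B) ∧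
    ∀ (g : G) (A : Set G), m ((fun x => g * x) '' A) = m A

variable {G : Type*} [Group G]

/-- the shift `(g y) h = y (g⁻¹ h)` -/
def shift (g : G) (y : G → Bool) : G → Bool := fun h => y (g⁻¹ * h)

theorem shift_measurable (g : G) : Measurable (shift (G := G) g) := by
  unfold shift
  fun_prop

theorem shift_mp (g : G) : MeasurePreserving (shift (G := G) g) (bern G) (bern G) := by
  refine ⟨shift_measurable g, ?_⟩
  exact Measure.map_infinitePi_infinitePi_of_inj (P := fun _ : G => coin)
    (f := fun h : G => g⁻¹ * h) (mul_right_injective g⁻¹)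

/-- left translate of a finite set -/
def tr (g : G) (S : Finset G) : Finset G := S.map (Equiv.mulLeft g).toEmbedding

theorem wal_tr (g : G) (S : Finset G) (y : G → Bool) : wal (tr g S) (shift g y) = wal S y := by
  unfold wal tr shift
  rw [Finset.prod_map]
  refine Finset.prod_congr rfl fun s _ => ?_
  simp

/-- translation as a permutation of the finite sets -/
def trE (g : G) : Finset G ≃ Finset G where
  toFun := tr g
  invFun := tr g⁻¹
  left_inv S := by
    ext x
    simp [tr]
  right_inv S := by
    ext x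
    simp [tr]

theorem tr_card (g : G) (S : Finset G) : (tr g S).card = S.card := by simp [tr]

theorem tr_empty (g : G) : tr g (∅ : Finset G) = ∅ := by simp [tr]

theorem tr_eq_empty (g : G) (S : Finset G) : tr g S = ∅ ↔ S = ∅ := by
  rw [← Finset.card_eq_zero, tr_card, Finset.card_eq_zero]

theorem wal_meas (S : Finset G) : Measurable (wal S) := by
  unfold wal
  refine Finset.measurable_prod S fun s _ => ?_
  exact (measurable_of_finite sgn).comp (measurable_pi_apply s)

theorem wc_shift (g : G) (B : Set (G → Bool)) (hB : MeasurableSet B) (S : Finset G) :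
    wc (shift g ⁻¹' B) S = wc B (tr g S) := by
  unfold wc
  have h1 : ∀ y, wal S y = wal (tr g S) (shift g y) := fun y => (wal_tr g S y).symm
  simp_rw [h1]
  rw [← setIntegral_map hB (wal_meas _).aestronglyMeasurable (shift_measurable g).aemeasurable,
    (shift_mp g).map_eq]

/-- the proportion of `S` in `A` -/
noncomputable def rr (A : Set G) (S : Finset G) : ℝ :=
  open Classical in ((S.filter (· ∈ A)).card : ℝ) / S.card

theorem rr_nonneg (A : Set G) (S : Finset G) : 0 ≤ rr A S := by unfold rr; positivity

theorem rr_le_one (A : Set G) (S : Finset G) : rr A S ≤ 1 := by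
  classical
  unfold rr
  refine div_le_one_of_le₀ ?_ (by positivity)
  exact_mod_cast Finset.card_filter_le _ _

theorem rr_univ (S : Finset G) (hS : S ≠ ∅) : rr univ S = 1 := by
  classical
  unfold rr
  have h : (S.card : ℝ) ≠ 0 := by
    exact_mod_cast (Finset.card_ne_zero.2 (Finset.nonempty_iff_ne_empty.2 hS))
  simp [h]

theorem rr_union (A B : Set G) (h : Disjoint A B) (S : Finset G) :
    rr (A ∪ B) S = rr A S + rr B S := by
  classical
  unfold rr
  rw [← add_div]
  congr 1
  rw [← Nat.cast_add, ← Finset.card_union_of_disjoint]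
  · congr 2
    ext x
    simp only [Finset.mem_filter, Finset.mem_union, mem_union]
    tauto
  · rw [Finset.disjoint_filter]
    intro x _ hA hB
    exact Set.disjoint_left.1 h hA hB

theorem rr_tr (A : Set G) (g : G) (S : Finset G) : rr ((fun x => g * x) '' A) (tr g S) = rr A S := by
  classical
  unfold rr
  rw [tr_card]
  congr 2
  have : (tr g S).filter (· ∈ (fun x => g * x) '' A) = (S.filter (· ∈ A)).map
      (Equiv.mulLeft g).toEmbedding := by
    ext x
    simp only [tr, Finset.mem_filter, Finset.mem_map, mem_image, Equiv.coe_toEmbedding,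
      Equiv.coe_mulLeft]
    constructor
    · rintro ⟨⟨s, hs, rfl⟩, a, ha, h⟩
      have : a = s := mul_left_cancel h
      subst this
      exact ⟨a, ⟨hs, ha⟩, rfl⟩
    · rintro ⟨s, ⟨hs, hA⟩, rfl⟩
      exact ⟨⟨s, hs, rfl⟩, s, hA, rfl⟩
  rw [this, Finset.card_map]

variable [Countable G]

theorem wc_empty (B : Set (G → Bool)) : wc B ∅ = (bern G).real B := by
  unfold wc
  simp [wal_empty]

theorem hasSum_sq (B : Set (G → Bool)) (hB : MeasurableSet B) :
    HasSum (fun S => wc B S ^ 2) ((bern G).real B) := by
  have h := parseval B ∅ hB MeasurableSet.empty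
  have h2 : symmDiff B ∅ = B := by rw [← Set.bot_eq_empty, symmDiff_bot]
  rw [h2] at h
  simpa [wc] using h

theorem almost_mean (B : Set (G → Bool)) (hB : MeasurableSet B) (v : ℝ)
    (hv : v = (bern G).real B * (1 - (bern G).real B)) (hv0 : 0 < v) (l : ℝ) (hl : 0 < l) :
    ∃ p : Set G → ℝ, (∀ A, 0 ≤ p A ∧ p A ≤ 1) ∧ p univ = 1 ∧
      (∀ A C : Set G, Disjoint A C → p (A ∪ C) = p A + p C) ∧
      ∀ g : G, (bern G).real (symmDiff (shift g ⁻¹' B) B) ≤ v / l ^ 2 → ∀ A : Set G,
        |p ((fun x => g * x) '' A) - p A| ≤ 5 / (2 * l) := by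
  classical
  -- the weights
  let q : Finset G → ℝ := fun S => if S = ∅ then 0 else wc B S ^ 2 / v
  have hq0 : ∀ S, 0 ≤ q S := by
    intro S
    simp only [q]
    split_ifs
    · exact le_rfl
    · positivity
  have hsum : HasSum q 1 := by
    have h1 := (hasSum_sq B hB).sub (hasSum_ite_eq (∅ : Finset G) ((bern G).real B ^ 2))
    have h2 := h1.div_const v
    have h3 : ((bern G).real B - (bern G).real B ^ 2) / v = 1 := by
      rw [hv]
      rw [hv] at hv0
      rw [div_eq_one_iff_eq hv0.ne']
      ring
    rw [h3] at h2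
    have h4 : q = fun S => (wc B S ^ 2 - if S = ∅ then (bern G).real B ^ 2 else 0) / v := by
      funext S
      simp only [q]
      split_ifs with h
      · subst h; rw [wc_empty]; simp
      · simp
    rw [h4]
    exact h2
  have hsr : ∀ A : Set G, Summable fun S => q S * rr A S := fun A =>
    Summable.of_nonneg_of_le (fun S => mul_nonneg (hq0 S) (rr_nonneg A S))
      (fun S => mul_le_of_le_one_right (hq0 S) (rr_le_one A S)) hsum.summable
  refine ⟨fun A => ∑' S, q S * rr A S, ?_, ?_, ?_, ?_⟩
  · intro A
    refine ⟨tsum_nonneg fun S => mul_nonneg (hq0 S) (rr_nonneg A S), ?_⟩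
    rw [← hsum.tsum_eq]
    exact (hsr A).tsum_le_tsum (fun S => mul_le_of_le_one_right (hq0 S) (rr_le_one A S)) hsum.summable
  · rw [← hsum.tsum_eq]
    refine tsum_congr fun S => ?_
    by_cases hS : S = ∅
    · simp [q, hS]
    · rw [rr_univ S hS, mul_one]
  · intro A C hAC
    rw [← (hsr A).tsum_add (hsr C)]
    refine tsum_congr fun S => ?_
    rw [rr_union A C hAC]; ring
  · intro g hg A
    have hB' : MeasurableSet (shift g ⁻¹' B) := shift_measurable g hB
    -- translated weights
    have e1 : ∑' S, q S * rr ((fun x => g * x) '' A) S = ∑' S, q (tr g S) * rr A S := by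
      rw [← (trE g).tsum_eq]
      refine tsum_congr fun S => ?_
      show q (tr g S) * rr ((fun x => g * x) '' A) (tr g S) = _
      rw [rr_tr]
    have hs1 : Summable fun S => q (tr g S) * rr A S := by
      have := (trE g).summable_iff.2 (hsr ((fun x => g * x) '' A))
      refine this.congr fun S => ?_
      show q (tr g S) * rr ((fun x => g * x) '' A) (tr g S) = q (tr g S) * rr A S
      rw [rr_tr]
    -- the bound on the difference
    let a : Finset G → ℝ := fun S => wc (shift g ⁻¹' B) S
    let b : Finset G → ℝ := fun S => wc B S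
    have hD := parseval (shift g ⁻¹' B) B hB' hB
    have hmB : (bern G).real (shift g ⁻¹' B) = (bern G).real B := by
      simp only [Measure.real]
      rw [(shift_mp g).measure_preimage hB.nullMeasurableSet]
    have ha2 := hasSum_sq _ hB'
    rw [hmB] at ha2
    have hb2 := hasSum_sq _ hB
    have ha2' := ha2.sub (hasSum_ite_eq (∅ : Finset G) ((bern G).real B ^ 2))
    have hb2' := hb2.sub (hasSum_ite_eq (∅ : Finset G) ((bern G).real B ^ 2))
    have hvv : (bern G).real B - (bern G).real B ^ 2 = v := by rw [hv]; ring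
    rw [hvv] at ha2' hb2'
    have hT := ((hD.mul_left (l / 2)).add ((ha2'.add hb2').mul_left (1 / l))).div_const v
    set T : Finset G → ℝ := fun S => (l / 2 * (wc (shift g ⁻¹' B) S - wc B S) ^ 2 + 1 / l *
      ((wc (shift g ⁻¹' B) S ^ 2 - if S = ∅ then (bern G).real B ^ 2 else 0) +
        (wc B S ^ 2 - if S = ∅ then (bern G).real B ^ 2 else 0))) / v with hTdef
    have hpt : ∀ S, |q (tr g S) - q S| ≤ T S := by
      intro S
      by_cases hS : S = ∅
      · subst hS
        rw [tr_empty]
        simp only [hTdef, sub_self, abs_zero, if_true, wc_empty, hmB]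
        simp
      · have hS' : tr g S ≠ ∅ := fun h => hS ((tr_eq_empty g S).1 h)
        simp only [hTdef, q, hS, hS', if_false, sub_zero]
        rw [← wc_shift g B hB S, ← sub_div, abs_div, abs_of_pos hv0]
        refine div_le_div_of_nonneg_right ?_ hv0.le
        set x := wc (shift g ⁻¹' B) S
        set y := wc B S
        have h1 : |x ^ 2 - y ^ 2| = |x - y| * |x + y| := by
          rw [← abs_mul]; congr 1; ring
        rw [h1]
        have h2 : |x - y| * |x + y| ≤ l / 2 * |x - y| ^ 2 + 1 / (2 * l) * |x + y| ^ 2 := by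
          have h3 : 0 ≤ 1 / (2 * l) * (l * |x - y| - |x + y|) ^ 2 := by positivity
          have h4 : 1 / (2 * l) * (l * |x - y| - |x + y|) ^ 2 =
              l / 2 * |x - y| ^ 2 + 1 / (2 * l) * |x + y| ^ 2 - |x - y| * |x + y| := by
            field_simp
            ring
          linarith
        refine h2.trans ?_
        rw [sq_abs, sq_abs]
        have h5 : (x + y) ^ 2 ≤ 2 * (x ^ 2 + y ^ 2) := by nlinarith [sq_nonneg (x - y)]
        have h6 : 1 / (2 * l) * (x + y) ^ 2 ≤ 1 / l * (x ^ 2 + y ^ 2) := by
          calc 1 / (2 * l) * (x + y) ^ 2 ≤ 1 / (2 * l) * (2 * (x ^ 2 + y ^ 2)) := by gcongr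
            _ = _ := by field_simp
        linarith
    have hsT : Summable T := hT.summable
    have hd : ∑' S, q S * rr ((fun x => g * x) '' A) S - ∑' S, q S * rr A S =
        ∑' S, (q (tr g S) - q S) * rr A S := by
      rw [e1, ← hs1.tsum_sub (hsr A)]
      refine tsum_congr fun S => ?_
      ring
    have hle : ∀ S, |(q (tr g S) - q S) * rr A S| ≤ T S := by
      intro S
      rw [abs_mul, abs_of_nonneg (rr_nonneg A S)]
      exact (mul_le_of_le_one_right (abs_nonneg _) (rr_le_one A S)).trans (hpt S)
    have hsabs : Summable fun S => |(q (tr g S) - q S) * rr A S| :=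
      Summable.of_nonneg_of_le (fun _ => abs_nonneg _) hle hsT
    rw [hd]
    calc |∑' S, (q (tr g S) - q S) * rr A S| ≤ ∑' S, |(q (tr g S) - q S) * rr A S| := by
          have := norm_tsum_le_tsum_norm (f := fun S => (q (tr g S) - q S) * rr A S) hsabs
          simpa [Real.norm_eq_abs] using this
      _ ≤ ∑' S, T S := hsabs.tsum_le_tsum hle hsT
      _ = (l / 2 * (bern G).real (symmDiff (shift g ⁻¹' B) B) + 1 / l * (v + v)) / v := hT.tsum_eq
      _ ≤ (l / 2 * (v / l ^ 2) + 1 / l * (v + v)) / v := by gcongr
      _ = 5 / (2 * l) := by field_simp; ring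

/-- **Strong ergodicity with a linear bound** (spectral gap on sets) of the Bernoulli shift of a
non-amenable group. -/
theorem strong (hG : ¬ IsAmenable G) : ∃ (F : Finset G) (K : ℝ), 0 < K ∧
    ∀ B : Set (G → Bool), MeasurableSet B → (bern G).real B * (1 - (bern G).real B) ≤
      K * ∑ g ∈ F, (bern G).real (symmDiff (shift g ⁻¹' B) B) := by
  classical
  by_contra hcon
  push Not at hcon
  apply hG
  -- almost invariant means
  have h1 : ∀ i : Finset G × ℕ, ∃ p : Set G → ℝ, (∀ A, 0 ≤ p A ∧ p A ≤ 1) ∧ p univ = 1 ∧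
      (∀ A C : Set G, Disjoint A C → p (A ∪ C) = p A + p C) ∧
      ∀ g ∈ i.1, ∀ A : Set G, |p ((fun x => g * x) '' A) - p A| ≤ 5 / (2 * ((i.2 : ℝ) + 1)) := by
    rintro ⟨F, n⟩
    obtain ⟨B, hB, hlt⟩ := hcon F (((n : ℝ) + 1) ^ 2) (by positivity)
    have hv0 : 0 < (bern G).real B * (1 - (bern G).real B) := by
      refine lt_of_le_of_lt ?_ hlt
      have : 0 ≤ ∑ g ∈ F, (bern G).real (symmDiff (shift g ⁻¹' B) B) :=
        Finset.sum_nonneg fun _ _ => measureReal_nonneg
      positivity
    obtain ⟨p, hp1, hp2, hp3, hp4⟩ := almost_mean B hB _ rfl hv0 ((n : ℝ) + 1) (by positivity)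
    refine ⟨p, hp1, hp2, hp3, fun g hg A => hp4 g ?_ A⟩
    rw [le_div_iff₀ (by positivity), mul_comm]
    refine le_trans ?_ hlt.le
    refine mul_le_mul_of_nonneg_left ?_ (by positivity)
    exact Finset.single_le_sum (f := fun g => (bern G).real (symmDiff (shift g ⁻¹' B) B))
      (fun _ _ => measureReal_nonneg) hg
  choose p hp1 hp2 hp3 hp4 using h1
  let U : Ultrafilter (Finset G × ℕ) := Ultrafilter.of atTop
  have hU : (U : Filter (Finset G × ℕ)) ≤ atTop := Ultrafilter.of_le atTop
  have hlim : ∀ A : Set G, ∃ x : ℝ, Tendsto (fun i => p i A) U (𝓝 x) := by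
    intro A
    have hc : IsCompact (Icc (0 : ℝ) 1) := isCompact_Icc
    obtain ⟨x, -, hx⟩ := hc.ultrafilter_le_nhds (U.map fun i => p i A) (by
      rw [le_principal_iff, Ultrafilter.mem_coe, Ultrafilter.mem_map]
      exact Filter.univ_mem' fun i => hp1 i A)
    exact ⟨x, hx⟩
  choose m hm using hlim
  refine ⟨m, ?_, ?_, ?_, ?_⟩
  · intro A
    exact ge_of_tendsto (hm A) (Filter.Eventually.of_forall fun i => (hp1 i A).1)
  · refine tendsto_nhds_unique (hm univ) ?_
    simp only [hp2]
    exact tendsto_const_nhds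
  · intro A B hAB
    refine tendsto_nhds_unique (hm (A ∪ B)) ?_
    simp only [hp3 _ A B hAB]
    exact (hm A).add (hm B)
  · intro g A
    refine tendsto_nhds_unique (hm _) ?_
    have h2 : Tendsto (fun i => p i ((fun x => g * x) '' A) - p i A) U (𝓝 0) := by
      have h3 : Tendsto (fun i : Finset G × ℕ => 5 / (2 * ((i.2 : ℝ) + 1))) atTop (𝓝 0) := by
        have h4 : Tendsto (fun i : Finset G × ℕ => i.2) atTop atTop := by
          rw [← prod_atTop_atTop_eq]; exact tendsto_snd
        have h5 : Tendsto (fun n : ℕ => 5 / (2 * ((n : ℝ) + 1))) atTop (𝓝 0) := by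
          have h6 := (tendsto_one_div_add_atTop_nhds_zero_nat (𝕜 := ℝ)).const_mul (5 / 2)
          rw [mul_zero] at h6
          refine h6.congr fun n => ?_
          field_simp
        exact h5.comp h4
      refine squeeze_zero_norm' ?_ (h3.mono_left hU)
      have h7 : ∀ᶠ i : Finset G × ℕ in atTop, g ∈ i.1 := by
        filter_upwards [eventually_ge_atTop (({g} : Finset G), 0)] with i hi
        exact hi.1 (Finset.mem_singleton_self g)
      filter_upwards [hU h7] with i hi
      exact hp4 i g hi A
    have h8 := h2.add (hm A)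
    rw [zero_add] at h8
    refine h8.congr fun i => ?_
    ring

end Pool.Agent.TH285
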