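import Mathlib
import Pool.Agent.TH285.Strong

/-!
# Freeness and non-atomicity of the Bernoulli shift of an infinite group
-/

set_option autoImplicit false
set_option linter.unusedSectionVars false

open MeasureTheory Filter Topology Set

namespace Pool.Agent.TH285

variable {G : Type*} [Group G]

theorem infinite_of_not_amenable (hG : ¬ IsAmenable G) : Infinite G := by
  classical
  by_contra hfin
  rw [not_infinite_iff_finite] at hfin
  have := Fintype.ofFinite G
  apply hG
  have hc : (Fintype.card G : ℝ) ≠ 0 := by
    exact_mod_cast Fintype.card_ne_zero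
  refine ⟨fun A => (A.ncard : ℝ) / Fintype.card G, fun A => by positivity, ?_, ?_, ?_⟩
  · show ((univ : Set G).ncard : ℝ) / _ = 1
    rw [Set.ncard_univ, Nat.card_eq_fintype_card]
    exact div_self hc
  · intro A B hAB
    show ((A ∪ B).ncard : ℝ) / _ = (A.ncard : ℝ) / _ + (B.ncard : ℝ) / _
    rw [Set.ncard_union_eq hAB (Set.toFinite A) (Set.toFinite B), Nat.cast_add, add_div]
  · intro g A
    show (((fun x => g * x) '' A).ncard : ℝ) / _ = (A.ncard : ℝ) / _
    rw [Set.ncard_image_of_injective A (mul_right_injective g)]

variable [Countable G]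

theorem null_of_coeff [Infinite G] (A : Set (G → Bool)) (hA : MeasurableSet A) (f : G → Finset G)
    (hf : ∀ h, h ∈ f h) (hc : ∀ h, (wc A (f h)) ^ 2 = ((bern G).real A) ^ 2) : bern G A = 0 := by
  have h1 := (hasSum_sq A hA).summable.tendsto_cofinite_zero
  have h2 : Tendsto f cofinite cofinite := by
    refine Filter.Tendsto.cofinite_of_finite_preimage_singleton fun S => ?_
    refine S.finite_toSet.subset fun h hh => ?_
    have : f h = S := hh
    rw [← this]
    exact hf h
  have h3 := h1.comp h2
  have h4 : ((fun S => wc A S ^ 2) ∘ f) = fun _ => ((bern G).real A) ^ 2 := by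
    funext h; exact hc h
  rw [h4] at h3
  have h5 := tendsto_nhds_unique h3 tendsto_const_nhds
  have h6 : (bern G).real A = 0 := by
    have : ((bern G).real A) ^ 2 = 0 := h5.symm
    exact pow_eq_zero_iff (two_ne_zero) |>.1 this
  rw [measureReal_eq_zero_iff] at h6
  exact h6

theorem bern_singleton [Infinite G] (y : G → Bool) : bern G {y} = 0 := by
  refine null_of_coeff {y} (measurableSet_singleton y) (fun h => {h})
    (fun h => Finset.mem_singleton_self h) fun h => ?_
  have h1 : wc {y} ({h} : Finset G) = (bern G).real {y} * wal {h} y := by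
    unfold wc
    rw [integral_singleton]
    simp
  rw [h1, mul_pow, sq (wal {h} y), wal_sq, mul_one]

theorem shift_free [Infinite G] (g : G) (hg : g ≠ 1) : bern G {y | shift g y = y} = 0 := by
  classical
  have hm : MeasurableSet {y : G → Bool | shift g y = y} :=
    measurableSet_eq_fun (shift_measurable g) measurable_id
  refine null_of_coeff _ hm (fun h => {h, g⁻¹ * h}) (fun h => by simp) fun h => ?_
  have hne : h ≠ g⁻¹ * h := by
    intro h1
    apply hg
    have : g⁻¹ = 1 := by
      have h2 : 1 * h = g⁻¹ * h := by rw [one_mul]; exact h1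
      exact (mul_right_cancel h2).symm
    exact inv_eq_one.1 this
  have h1 : wc {y : G → Bool | shift g y = y} {h, g⁻¹ * h} =
      (bern G).real {y : G → Bool | shift g y = y} := by
    unfold wc
    rw [setIntegral_congr_fun (g := fun _ => (1 : ℝ)) hm]
    · simp
    · intro y hy
      have h2 : y (g⁻¹ * h) = y h := congrFun hy h
      show wal {h, g⁻¹ * h} y = 1
      unfold wal
      rw [Finset.prod_pair hne, h2, sgn_sq]
  rw [h1]

end Pool.Agent.TH285
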